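import Pool.Agent.Lib.MP_ca9574_an.Fun

set_option autoImplicit false

namespace Pool.Agent.Lib.MP_ca9574_an

open Set Filter Topology Metric

variable {E : Type*} [NormedAddCommGroup E] [InnerProductSpace ℂ E]

/-- An affine map sending the unit circle into the unit sphere. -/
theorem affine_norm {a b : E} (h : ∀ l : ℂ, ‖l‖ = 1 → ‖a + l • b‖ = 1) (l : ℂ) :
    ‖a + l • b‖ ^ 2 = 1 + (‖l‖ ^ 2 - 1) * ‖b‖ ^ 2 := by
  have hexp : ∀ l : ℂ, ‖a + l • b‖ ^ 2 = ‖a‖ ^ 2 + 2 * (l * inner ℂ a b).re + ‖l‖ ^ 2 * ‖b‖ ^ 2 := by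
    intro l
    have := norm_add_sq (𝕜 := ℂ) a (l • b)
    rw [this, inner_smul_right, norm_smul, mul_pow]
    rfl
  have h1 := hexp 1
  have h2 := hexp (-1)
  have h3 := hexp Complex.I
  have h4 := hexp (-Complex.I)
  rw [h 1 (by simp)] at h1
  rw [h (-1) (by simp)] at h2
  rw [h Complex.I (by simp)] at h3
  rw [h (-Complex.I) (by simp)] at h4
  simp only [one_mul, norm_one, one_pow, neg_mul, Complex.neg_re, norm_neg, Complex.norm_I,
    Complex.I_mul_re] at h1 h2 h3 h4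
  have hre : (inner ℂ a b : ℂ).re = 0 := by linarith
  have him : (inner ℂ a b : ℂ).im = 0 := by linarith
  have hin : (inner ℂ a b : ℂ) = 0 := Complex.ext hre him
  rw [hexp l, hin, mul_zero, Complex.zero_re]
  rw [hin] at h1
  simp only [Complex.zero_re] at h1
  nlinarith

theorem tail_bound {η : ℕ → E} (hη : ∀ k, ‖η k‖ = 1) (k : ℕ) (z : E) (hz : ‖z‖ ≤ 1) :
    ‖F η z - ∑ j ∈ Finset.range k, T η j z‖ ≤ 2 * Real.exp (-(M k : ℝ)) := by
  have hs := summable_T hη z hz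
  have h1 : F η z - ∑ j ∈ Finset.range k, T η j z = ∑' j, T η (j + k) z := by
    unfold F
    rw [← hs.sum_add_tsum_nat_add k]
    ring
  rw [h1]
  have he1 : Real.exp (-1) < 1 / 2 := by
    have := Real.exp_one_gt_d9
    rw [Real.exp_neg, inv_lt_comm₀ (Real.exp_pos _) (by norm_num)]
    linarith
  have hgeo : HasSum (fun j : ℕ => Real.exp (-(M k : ℝ)) * (Real.exp (-1)) ^ j)
      (Real.exp (-(M k : ℝ)) * (1 - Real.exp (-1))⁻¹) :=
    (hasSum_geometric_of_lt_one (Real.exp_pos _).le (by linarith)).mul_left _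
  have h2 := tsum_of_norm_bounded hgeo (f := fun j => T η (j + k) z) (by
    intro j
    refine (norm_T_le hη _ z).trans ?_
    calc Real.exp (-(M (j + k) : ℝ)) * ‖z‖ ^ (M (j + k) ^ 2)
        ≤ Real.exp (-(M (j + k) : ℝ)) * 1 :=
          mul_le_mul_of_nonneg_left (pow_le_one₀ (norm_nonneg _) hz) (Real.exp_pos _).le
      _ ≤ _ := by rw [mul_one, add_comm j k]; exact exp_M_add k j)
  refine h2.trans ?_
  rw [mul_comm]
  apply mul_le_mul_of_nonneg_right _ (Real.exp_pos _).le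
  rw [inv_le_comm₀ (by linarith) (by norm_num)]
  linarith

theorem tendsto_M : Tendsto (fun k : ℕ => (M k : ℝ)) atTop atTop :=
  tendsto_natCast_atTop_atTop.comp (tendsto_atTop_mono le_M tendsto_id)

theorem tendsto_M_sq : Tendsto (fun k : ℕ => M k ^ 2) atTop atTop := by
  have : Tendsto (fun k : ℕ => M k) atTop atTop := tendsto_atTop_mono le_M tendsto_id
  exact this.atTop_pow (by norm_num) |> fun h => h

/-- the error bound tends to zero -/
theorem bound_tendsto (H R : ℝ) (t : ℕ) (ht0 : 0 < t) (ht : R * (4 / 5) ^ t ≤ 1 / 2) (hR : 0 ≤ R) :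
    Tendsto (fun k : ℕ => 6 * ((2 * Real.exp (-(M (k + 1) : ℝ))) * 5 ^ (t * M k ^ 2)
      + (H + (k + 1) * R ^ (M k ^ 2)) * (4 / 5) ^ (t * M k ^ 2))) atTop (𝓝 0) := by
  have hM := tendsto_M
  have hM2 := tendsto_M_sq
  -- first term
  have h1 : Tendsto (fun k : ℕ => Real.exp (-(M (k + 1) : ℝ)) * 5 ^ (t * M k ^ 2)) atTop (𝓝 0) := by
    have hlog : ∀ k : ℕ, Real.exp (-(M (k + 1) : ℝ)) * 5 ^ (t * M k ^ 2)
        = Real.exp (-((M k : ℝ) ^ 2 * ((M k : ℝ) - t * Real.log 5))) := by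
      intro k
      have : (5 : ℝ) ^ (t * M k ^ 2) = Real.exp ((t * M k ^ 2 : ℕ) * Real.log 5) := by
        rw [Real.exp_nat_mul, Real.exp_log (by norm_num)]
      rw [this, ← Real.exp_add, M_succ]
      congr 1
      push_cast
      ring
    simp only [hlog]
    apply Real.tendsto_exp_atBot.comp
    apply tendsto_neg_atTop_atBot.comp
    apply Tendsto.atTop_mul_atTop₀
    · exact (tendsto_pow_atTop (by norm_num)).comp hM
    · exact tendsto_atTop_add_const_right _ _ hM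
  -- second term
  have h2 : Tendsto (fun k : ℕ => H * (4 / 5 : ℝ) ^ (t * M k ^ 2)) atTop (𝓝 0) := by
    have h3 : Tendsto (fun k : ℕ => t * M k ^ 2) atTop atTop :=
      hM2.const_mul_atTop' ht0
    have h4 := (tendsto_pow_atTop_nhds_zero_of_lt_one (r := (4 / 5 : ℝ)) (by norm_num)
      (by norm_num)).comp h3
    simpa using h4.const_mul H
  have h3 : Tendsto (fun k : ℕ => ((k : ℝ) + 1) * (1 / 2 : ℝ) ^ (M k ^ 2)) atTop (𝓝 0) := by
    have h4 : Tendsto (fun k : ℕ => ((k : ℝ)) * (1 / 2 : ℝ) ^ k + (1 / 2 : ℝ) ^ k) atTop (𝓝 0) := by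
      have h5 := tendsto_self_mul_const_pow_of_abs_lt_one (r := (1 / 2 : ℝ)) (by
        rw [abs_of_pos] <;> norm_num)
      have h6 := tendsto_pow_atTop_nhds_zero_of_lt_one (r := (1 / 2 : ℝ)) (by norm_num)
        (by norm_num)
      simpa using h5.add h6
    apply squeeze_zero _ _ h4
    · intro k; positivity
    · intro k
      have h5 : (1 / 2 : ℝ) ^ (M k ^ 2) ≤ (1 / 2 : ℝ) ^ k := by
        apply pow_le_pow_of_le_one (by norm_num) (by norm_num)
        have := le_M k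
        nlinarith [M_pos k]
      calc ((k : ℝ) + 1) * (1 / 2 : ℝ) ^ (M k ^ 2) ≤ ((k : ℝ) + 1) * (1 / 2 : ℝ) ^ k := by gcongr
        _ = _ := by ring
  have h4 : Tendsto (fun k : ℕ => ((k : ℝ) + 1) * R ^ (M k ^ 2) * (4 / 5) ^ (t * M k ^ 2))
      atTop (𝓝 0) := by
    apply squeeze_zero _ _ h3
    · intro k; positivity
    · intro k
      have : R ^ (M k ^ 2) * (4 / 5 : ℝ) ^ (t * M k ^ 2) = (R * (4 / 5) ^ t) ^ (M k ^ 2) := by
        rw [mul_pow, ← pow_mul]
      rw [mul_assoc, this]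
      gcongr
  have h5 := ((h1.const_mul 2).add (h2.add h4)).const_mul 6
  simp only [mul_zero, add_zero] at h5
  refine h5.congr (fun k => ?_)
  ring

/-- The growth of the terms outside the ball. -/
theorem term_large {η : ℕ → E} {p : E} {j₀ : ℕ} {d : ℕ → E}
    (hη : ∀ k, η k = d (Nat.unpair k).1) (hq : 1 < ‖innerSL ℂ (d j₀) p‖) :
    ¬ Tendsto (fun k => T η k p) atTop (𝓝 0) := by
  intro ht
  set q := ‖innerSL ℂ (d j₀) p‖ with hqd
  have hsub : Tendsto (fun i : ℕ => Nat.pair j₀ i) atTop atTop := by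
    apply tendsto_atTop_mono (fun i => Nat.right_le_pair j₀ i) tendsto_id
  have h1 := (ht.comp hsub).norm
  rw [norm_zero] at h1
  have h2 : ∀ᶠ i : ℕ in atTop, ‖T η (Nat.pair j₀ i) p‖ < 1 := by
    have := h1.eventually (gt_mem_nhds (show (0:ℝ) < 1 by norm_num))
    exact this
  have hlog : 0 < Real.log q := Real.log_pos hq
  have h3 : ∀ᶠ i : ℕ in atTop, (1 / Real.log q) ≤ (M (Nat.pair j₀ i) : ℝ) :=
    (tendsto_M.comp hsub).eventually (eventually_ge_atTop _)
  obtain ⟨i, hi2, hi3⟩ := (h2.and h3).exists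
  have h4 : ‖T η (Nat.pair j₀ i) p‖ = Real.exp (-(M (Nat.pair j₀ i) : ℝ)) *
      q ^ (M (Nat.pair j₀ i) ^ 2) := by
    unfold T
    rw [hη, Nat.unpair_pair, norm_smul, norm_pow, Complex.norm_real,
      Real.norm_of_nonneg (Real.exp_pos _).le]
  rw [h4] at hi2
  set m := M (Nat.pair j₀ i) with hm
  have h5 : q ^ (m ^ 2) = Real.exp ((m ^ 2 : ℕ) * Real.log q) := by
    rw [Real.exp_nat_mul, Real.exp_log (by linarith)]
  rw [h5, ← Real.exp_add, Real.exp_lt_one_iff] at hi2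
  rw [div_le_iff₀ hlog] at hi3
  push_cast at hi2
  have hm0 : (0:ℝ) < m := by exact_mod_cast M_pos _
  nlinarith

/-- Main boundary statement: no extension across a boundary point of an affine disc. -/
theorem no_extension {η : ℕ → E} {d : ℕ → E} (hη1 : ∀ k, ‖η k‖ = 1)
    (hη : ∀ k, η k = d (Nat.unpair k).1)
    (hd : ∀ p : E, 1 < ‖p‖ → ∃ j, 1 < ‖innerSL ℂ (d j) p‖)
    {a b : E} (hb : b ≠ 0) (hab : ∀ l : ℂ, ‖l‖ = 1 → ‖a + l • b‖ = 1)
    {c : ℂ} {r : ℝ} {h : ℂ → ℂ} {τ : ℂ} (hτ : ‖τ‖ = 1) (hτc : τ ∈ ball c r)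
    (hh : DifferentiableOn ℂ h (ball c r))
    (heq : ∀ l ∈ ball c r ∩ ball 0 1, h l = F η (a + l • b)) : False := by
  -- choose δ
  obtain ⟨δ₀, hδ₀, hsub₀⟩ := Metric.isOpen_iff.1 isOpen_ball τ hτc
  set δ := min (δ₀ / 8) (1 / 8) with hδd
  have hδ : 0 < δ := by positivity
  have hδ1 : δ ≤ δ₀ / 8 := min_le_left _ _
  have hδ2 : δ ≤ 1 / 8 := min_le_right _ _
  set c₀ : ℂ := ((1 - δ : ℝ) : ℂ) * τ with hc₀
  set p : ℂ := ((1 + δ : ℝ) : ℂ) * τ with hp
  have hdc : dist c₀ τ = δ := by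
    rw [dist_eq_norm, hc₀, show ((1 - δ : ℝ) : ℂ) * τ - τ = ((-δ : ℝ) : ℂ) * τ by push_cast; ring,
      norm_mul, hτ, mul_one, Complex.norm_real, Real.norm_eq_abs, abs_neg, abs_of_pos hδ]
  have hpc : dist p c₀ = 2 * δ := by
    rw [dist_eq_norm, hc₀, hp, show ((1 + δ : ℝ) : ℂ) * τ - ((1 - δ : ℝ) : ℂ) * τ
      = ((2 * δ : ℝ) : ℂ) * τ by push_cast; ring,
      norm_mul, hτ, mul_one, Complex.norm_real, Real.norm_of_nonneg (by positivity)]
  have hsub : closedBall c₀ (3 * δ) ⊆ ball c r := by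
    intro l hl
    apply hsub₀
    rw [mem_closedBall] at hl
    rw [mem_ball]
    calc dist l τ ≤ dist l c₀ + dist c₀ τ := dist_triangle _ _ _
      _ ≤ 3 * δ + δ := by rw [hdc]; linarith
      _ < δ₀ := by linarith
  have hnc₀ : ‖c₀‖ = 1 - δ := by
    rw [hc₀, norm_mul, hτ, mul_one, Complex.norm_real, Real.norm_of_nonneg (by linarith)]
  -- norms on the affine disc
  set Φ : ℂ → E := fun l => a + l • b with hΦ
  have hΦn := affine_norm hab
  have hbn : 0 < ‖b‖ := norm_pos_iff.2 hb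
  have hΦ1 : ∀ l : ℂ, ‖l‖ ≤ 1 → ‖Φ l‖ ≤ 1 := by
    intro l hl
    have h1 := hΦn l
    have h2 : ‖l‖ ^ 2 ≤ 1 := pow_le_one₀ (norm_nonneg _) hl
    have h3 : ‖a + l • b‖ ^ 2 ≤ 1 := by nlinarith [sq_nonneg ‖b‖]
    have : ‖a + l • b‖ ^ 2 ≤ 1 ^ 2 := by simpa using h3
    exact le_of_sq_le_sq this (by norm_num) |> fun h => h
  have hΦp : 1 < ‖Φ p‖ := by
    have h1 := hΦn p
    have h2 : ‖p‖ = 1 + δ := by
      rw [hp, norm_mul, hτ, mul_one, Complex.norm_real, Real.norm_of_nonneg (by positivity)]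
    rw [h2] at h1
    have h3 : 1 ^ 2 < ‖a + p • b‖ ^ 2 := by
      rw [h1, one_pow]
      have : 0 < ((1 + δ) ^ 2 - 1) * ‖b‖ ^ 2 := by
        have : 0 < (1 + δ) ^ 2 - 1 := by nlinarith
        positivity
      linarith
    exact lt_of_pow_lt_pow_left₀ 2 (norm_nonneg _) h3
  -- bound for h
  have hcomp : IsCompact (closedBall c₀ (3 * δ)) := isCompact_closedBall _ _
  obtain ⟨H, hH⟩ := hcomp.exists_bound_of_continuousOn (hh.mono hsub).continuousOn
  have hH0 : 0 ≤ H := le_trans (norm_nonneg _) (hH c₀ (mem_closedBall_self (by positivity)))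
  set R := ‖a‖ + 2 * ‖b‖ + 1 with hR
  have hR1 : 1 ≤ R := by rw [hR]; nlinarith [norm_nonneg a, norm_nonneg b]
  have hΦR : ∀ l ∈ closedBall c₀ (3 * δ), ‖Φ l‖ ≤ R := by
    intro l hl
    have h1 : ‖l‖ ≤ 2 := by
      rw [mem_closedBall, dist_eq_norm] at hl
      calc ‖l‖ = ‖(l - c₀) + c₀‖ := by ring_nf
        _ ≤ ‖l - c₀‖ + ‖c₀‖ := norm_add_le _ _
        _ ≤ 3 * δ + (1 - δ) := by rw [hnc₀]; linarith
        _ ≤ 2 := by linarith
    calc ‖a + l • b‖ ≤ ‖a‖ + ‖l • b‖ := norm_add_le _ _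
      _ = ‖a‖ + ‖l‖ * ‖b‖ := by rw [norm_smul]
      _ ≤ R := by rw [hR]; nlinarith [norm_nonneg b]
  obtain ⟨t, ht⟩ : ∃ t : ℕ, 0 < t ∧ R * (4 / 5 : ℝ) ^ t ≤ 1 / 2 := by
    have h1 : Tendsto (fun t : ℕ => R * (4 / 5 : ℝ) ^ t) atTop (𝓝 (R * 0)) :=
      (tendsto_pow_atTop_nhds_zero_of_lt_one (by norm_num) (by norm_num)).const_mul R
    rw [mul_zero] at h1
    have h2 := h1.eventually (ge_mem_nhds (show (0:ℝ) < 1 / 2 by norm_num))
    obtain ⟨t, ht1, ht2⟩ := (h2.and (eventually_gt_atTop 0)).exists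
    exact ⟨t, ht2, ht1⟩
  -- the differences
  set G : ℕ → ℂ → ℂ := fun k l => h l - ∑ j ∈ Finset.range k, T η j (Φ l) with hG
  have hΦd : Differentiable ℂ Φ := by
    simp only [hΦ]; fun_prop
  have hGd : ∀ k, DifferentiableOn ℂ (G k) (ball c r) := by
    intro k
    apply hh.sub
    apply Differentiable.differentiableOn
    apply Differentiable.fun_sum
    intro j _
    exact ((contDiff_T η j).differentiable (by simp)).comp hΦd
  have hsmall : ∀ k, ∀ l ∈ sphere c₀ (δ / 2), ‖G k l‖ ≤ 2 * Real.exp (-(M k : ℝ)) := by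
    intro k l hl
    rw [mem_sphere, dist_eq_norm] at hl
    have hl1 : ‖l‖ < 1 := by
      calc ‖l‖ = ‖(l - c₀) + c₀‖ := by ring_nf
        _ ≤ ‖l - c₀‖ + ‖c₀‖ := norm_add_le _ _
        _ = δ / 2 + (1 - δ) := by rw [hl, hnc₀]
        _ < 1 := by linarith
    have hl2 : l ∈ ball c r := by
      apply hsub
      rw [mem_closedBall, dist_eq_norm, hl]
      linarith
    simp only [hG]
    rw [heq l ⟨hl2, by rw [mem_ball_zero_iff]; exact hl1⟩]
    exact tail_bound hη1 k _ (hΦ1 l hl1.le)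
  have hbig : ∀ k : ℕ, ∀ l ∈ sphere c₀ (3 * δ), ‖G (k + 1) l‖ ≤ H + ((k : ℝ) + 1) * R ^ (M k ^ 2) := by
    intro k l hl
    have hlc : l ∈ closedBall c₀ (3 * δ) := sphere_subset_closedBall hl
    simp only [hG]
    refine (norm_sub_le _ _).trans ?_
    apply add_le_add (hH l hlc)
    refine (norm_sum_le _ _).trans ?_
    calc ∑ j ∈ Finset.range (k + 1), ‖T η j (Φ l)‖ ≤ ∑ _j ∈ Finset.range (k + 1), R ^ (M k ^ 2) := by
          apply Finset.sum_le_sum
          intro j hj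
          refine (norm_T_le hη1 j _).trans ?_
          have hjk : j ≤ k := by have := Finset.mem_range.1 hj; omega
          have h1 : Real.exp (-(M j : ℝ)) ≤ 1 := by
            rw [Real.exp_le_one_iff]; simp
          have h2 : ‖Φ l‖ ^ (M j ^ 2) ≤ R ^ (M k ^ 2) := by
            calc ‖Φ l‖ ^ (M j ^ 2) ≤ R ^ (M j ^ 2) :=
                  pow_le_pow_left₀ (norm_nonneg _) (hΦR l hlc) _
              _ ≤ R ^ (M k ^ 2) := by
                apply pow_le_pow_right₀ hR1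
                apply Nat.pow_le_pow_left
                have := M_add j (k - j)
                rw [Nat.add_sub_cancel' hjk] at this
                omega
          calc Real.exp (-(M j : ℝ)) * ‖Φ l‖ ^ (M j ^ 2) ≤ 1 * R ^ (M k ^ 2) :=
                mul_le_mul h1 h2 (by positivity) (by norm_num)
            _ = _ := one_mul _
      _ = ((k : ℝ) + 1) * R ^ (M k ^ 2) := by
          rw [Finset.sum_const, Finset.card_range, nsmul_eq_mul]; push_cast; ring
  have hGp1 : Tendsto (fun k => G (k + 1) p) atTop (𝓝 0) := by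
    apply squeeze_zero_norm _ (bound_tendsto H R t ht.1 ht.2 (by linarith))
    intro k
    exact two_const (G := G (k + 1)) hδ (by positivity) (by positivity) hsub (hGd (k + 1))
      (hsmall (k + 1)) (hbig k) hpc (t * M k ^ 2)
  have hGp : Tendsto (fun k => G k p) atTop (𝓝 0) := (tendsto_add_atTop_iff_nat 1).1 hGp1
  have hT : Tendsto (fun k => T η k (Φ p)) atTop (𝓝 0) := by
    have h1 := hGp.sub hGp1
    rw [sub_zero] at h1
    refine h1.congr (fun k => ?_)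
    simp only [hG]
    rw [Finset.sum_range_succ]
    ring
  obtain ⟨j₀, hj₀⟩ := hd (Φ p) hΦp
  exact term_large hη hj₀ hT

end Pool.Agent.Lib.MP_ca9574_an
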