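import Pool.Agent.Lib.MP_ca9574_an.Series

set_option autoImplicit false

namespace Pool.Agent.Lib.MP_ca9574_an

open Set Filter Topology Metric

variable {E : Type*} [NormedAddCommGroup E] [InnerProductSpace ℂ E]

/-- the term `exp(-M_k) ⟨η_k, z⟩ ^ (M_k^2)` -/
noncomputable def T (η : ℕ → E) (k : ℕ) (z : E) : ℂ :=
  (Real.exp (-(M k : ℝ)) : ℂ) • ((innerSL ℂ (η k) z) ^ (M k ^ 2))

/-- the series -/
noncomputable def F (η : ℕ → E) (z : E) : ℂ := ∑' k, T η k z

theorem contDiff_T (η : ℕ → E) (k : ℕ) : ContDiff ℂ ⊤ (T η k) := by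
  unfold T
  fun_prop

theorem norm_T_le {η : ℕ → E} (hη : ∀ k, ‖η k‖ = 1) (k : ℕ) (z : E) :
    ‖T η k z‖ ≤ Real.exp (-(M k : ℝ)) * ‖z‖ ^ (M k ^ 2) := by
  unfold T
  rw [norm_smul, norm_pow, Complex.norm_real, Real.norm_of_nonneg (Real.exp_pos _).le]
  apply mul_le_mul_of_nonneg_left _ (Real.exp_pos _).le
  apply pow_le_pow_left₀ (norm_nonneg _)
  calc ‖innerSL ℂ (η k) z‖ ≤ ‖innerSL ℂ (η k)‖ * ‖z‖ := ContinuousLinearMap.le_opNorm _ _
    _ = ‖z‖ := by rw [innerSL_apply_norm, hη, one_mul]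

theorem norm_iteratedDeriv_pow_le (N i : ℕ) (w : ℂ) (hw : ‖w‖ ≤ 1) :
    ‖iteratedDeriv i (fun w : ℂ => w ^ N) w‖ ≤ ((N : ℝ) + i) ^ i := by
  rw [iteratedDeriv_eq_iterate, iter_deriv_pow, norm_mul, norm_pow]
  have h1 : ‖∏ j ∈ Finset.range i, ((N : ℂ) - j)‖ ≤ ((N : ℝ) + i) ^ i := by
    rw [norm_prod]
    calc ∏ j ∈ Finset.range i, ‖((N : ℂ) - j)‖ ≤ ∏ _j ∈ Finset.range i, ((N : ℝ) + i) := by
          apply Finset.prod_le_prod (fun _ _ => norm_nonneg _)
          intro j hj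
          have hj' : (j : ℝ) ≤ i := by exact_mod_cast (Finset.mem_range.1 hj).le
          calc ‖((N : ℂ) - j)‖ ≤ ‖(N : ℂ)‖ + ‖(j : ℂ)‖ := norm_sub_le _ _
            _ = (N : ℝ) + j := by rw [Complex.norm_natCast, Complex.norm_natCast]
            _ ≤ (N : ℝ) + i := by linarith
      _ = ((N : ℝ) + i) ^ i := by rw [Finset.prod_const, Finset.card_range]
  calc ‖∏ j ∈ Finset.range i, ((N : ℂ) - j)‖ * ‖w‖ ^ (N - i) ≤ ((N : ℝ) + i) ^ i * 1 :=
        mul_le_mul h1 (pow_le_one₀ (norm_nonneg _) hw) (by positivity) (by positivity)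
    _ = _ := mul_one _

theorem norm_iteratedFDeriv_T_le {η : ℕ → E} (hη : ∀ k, ‖η k‖ = 1) (i k : ℕ) (z : E)
    (hz : ‖z‖ ≤ 1) :
    ‖iteratedFDeriv ℂ i (T η k) z‖ ≤ Real.exp (-(M k : ℝ)) * ((M k : ℝ) ^ 2 + i) ^ i := by
  have hcd : ContDiff ℂ ⊤ (fun w : ℂ => w ^ (M k ^ 2)) := by fun_prop
  have h0 : T η k = (Real.exp (-(M k : ℝ)) : ℂ) • ((fun w : ℂ => w ^ (M k ^ 2)) ∘ innerSL ℂ (η k)) := by
    funext z; rfl
  have hcd2 : ContDiff ℂ ⊤ ((fun w : ℂ => w ^ (M k ^ 2)) ∘ innerSL ℂ (η k)) :=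
    hcd.comp (innerSL ℂ (η k)).contDiff
  rw [h0, iteratedFDeriv_const_smul_apply (hcd2.contDiffAt.of_le le_top), norm_smul,
    Complex.norm_real, Real.norm_of_nonneg (Real.exp_pos _).le]
  apply mul_le_mul_of_nonneg_left _ (Real.exp_pos _).le
  rw [ContinuousLinearMap.iteratedFDeriv_comp_right (innerSL ℂ (η k)) hcd z (i := i) le_top]
  refine (ContinuousMultilinearMap.norm_compContinuousLinearMap_le _ _).trans ?_
  have hprod : ∏ _j : Fin i, ‖innerSL ℂ (η k)‖ = 1 := by
    rw [innerSL_apply_norm, hη]; simp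
  rw [hprod, mul_one, norm_iteratedFDeriv_eq_norm_iteratedDeriv]
  have hw : ‖innerSL ℂ (η k) z‖ ≤ 1 := by
    calc ‖innerSL ℂ (η k) z‖ ≤ ‖innerSL ℂ (η k)‖ * ‖z‖ := ContinuousLinearMap.le_opNorm _ _
      _ ≤ 1 := by rw [innerSL_apply_norm, hη, one_mul]; exact hz
  have := norm_iteratedDeriv_pow_le (M k ^ 2) i _ hw
  push_cast at this
  exact this

theorem summable_T {η : ℕ → E} (hη : ∀ k, ‖η k‖ = 1) (z : E) (hz : ‖z‖ ≤ 1) :
    Summable fun k => T η k z := by
  have h := summable_exp_pow 0 0 (le_refl _)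
  simp only [pow_zero, mul_one] at h
  apply Summable.of_norm_bounded h
  intro k
  refine (norm_T_le hη k z).trans ?_
  calc Real.exp (-(M k : ℝ)) * ‖z‖ ^ (M k ^ 2) ≤ Real.exp (-(M k : ℝ)) * 1 :=
        mul_le_mul_of_nonneg_left (pow_le_one₀ (norm_nonneg _) hz) (Real.exp_pos _).le
    _ = _ := mul_one _

theorem iteratedFDeriv_F {η : ℕ → E} (hη : ∀ k, ‖η k‖ = 1) (i : ℕ) :
    ∀ z ∈ ball (0 : E) 1, iteratedFDeriv ℂ i (F η) z = ∑' k, iteratedFDeriv ℂ i (T η k) z := by
  induction i with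
  | zero =>
    intro z hz
    rw [iteratedFDeriv_zero_eq_comp]
    simp only [Function.comp]
    unfold F
    exact (continuousMultilinearCurryFin0 ℂ E ℂ).symm.toContinuousLinearEquiv.map_tsum
      (f := fun k => T η k z)
  | succ i ih =>
    intro z hz
    have hev : iteratedFDeriv ℂ i (F η) =ᶠ[𝓝 z] fun y => ∑' k, iteratedFDeriv ℂ i (T η k) y := by
      filter_upwards [isOpen_ball.mem_nhds hz] with y hy
      exact ih y hy
    have hd : HasFDerivAt (fun y => ∑' k, iteratedFDeriv ℂ i (T η k) y)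
        (∑' k, fderiv ℂ (iteratedFDeriv ℂ i (T η k)) z) z := by
      apply hasFDerivAt_tsum_of_isPreconnected
        (summable_exp_pow (i + 1) ((i + 1 : ℕ) : ℝ) (by positivity)) isOpen_ball
        (convex_ball (0 : E) 1).isPreconnected
      · intro k x _
        apply DifferentiableAt.hasFDerivAt
        have := (contDiff_T η k).differentiable_iteratedFDeriv (m := i)
          (by exact_mod_cast WithTop.coe_lt_top _)
        exact this x
      · intro k x hx
        rw [norm_fderiv_iteratedFDeriv]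
        exact norm_iteratedFDeriv_T_le hη (i + 1) k x (by
          rw [mem_ball_zero_iff] at hx; exact hx.le)
      · exact hz
      · apply Summable.of_norm_bounded (summable_exp_pow i (i : ℝ) (by positivity))
        intro k
        exact norm_iteratedFDeriv_T_le hη i k z (by
          rw [mem_ball_zero_iff] at hz; exact hz.le)
      · exact hz
    rw [iteratedFDeriv_succ_eq_comp_left]
    simp only [Function.comp]
    rw [hev.fderiv_eq, hd.fderiv]
    exact (continuousMultilinearCurryLeftEquiv ℂ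
      (fun _ : Fin (i + 1) => E) ℂ).symm.toContinuousLinearEquiv.map_tsum
      (f := fun k => fderiv ℂ (iteratedFDeriv ℂ i (T η k)) z)

theorem continuousOn_sum {η : ℕ → E} (hη : ∀ k, ‖η k‖ = 1) (i : ℕ) :
    ContinuousOn (fun z => ∑' k, iteratedFDeriv ℂ i (T η k) z) (closedBall (0 : E) 1) := by
  apply continuousOn_tsum (u := fun k : ℕ => Real.exp (-(M k : ℝ)) * ((M k : ℝ) ^ 2 + i) ^ i)
  · intro k
    exact ((contDiff_T η k).continuous_iteratedFDeriv (m := i) (by exact_mod_cast le_top)).continuousOn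
  · exact summable_exp_pow i (i : ℝ) (by positivity)
  · intro k z hz
    exact norm_iteratedFDeriv_T_le hη i k z (by simpa using hz)

theorem continuousOn_F {η : ℕ → E} (hη : ∀ k, ‖η k‖ = 1) :
    ContinuousOn (F η) (closedBall (0 : E) 1) := by
  have h := summable_exp_pow 0 0 (le_refl _)
  simp only [pow_zero, mul_one] at h
  apply continuousOn_tsum (u := fun k : ℕ => Real.exp (-(M k : ℝ)))
  · intro k
    exact (contDiff_T η k).continuous.continuousOn
  · exact h
  · intro k z hz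
    have hz' : ‖z‖ ≤ 1 := by simpa using hz
    refine (norm_T_le hη k z).trans ?_
    calc Real.exp (-(M k : ℝ)) * ‖z‖ ^ (M k ^ 2) ≤ Real.exp (-(M k : ℝ)) * 1 :=
          mul_le_mul_of_nonneg_left (pow_le_one₀ (norm_nonneg _) hz') (Real.exp_pos _).le
      _ = _ := mul_one _

theorem differentiableOn_F {η : ℕ → E} (hη : ∀ k, ‖η k‖ = 1) :
    DifferentiableOn ℂ (F η) (ball (0 : E) 1) := by
  intro z hz
  have hd : HasFDerivAt (fun y => ∑' k, T η k y) (∑' k, fderiv ℂ (T η k) z) z := by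
    apply hasFDerivAt_tsum_of_isPreconnected
      (summable_exp_pow 1 ((1 : ℕ) : ℝ) (by positivity)) isOpen_ball
      (convex_ball (0 : E) 1).isPreconnected
    · intro k x _
      exact ((contDiff_T η k).differentiable (by simp)).differentiableAt.hasFDerivAt
    · intro k x hx
      rw [← norm_iteratedFDeriv_one]
      exact norm_iteratedFDeriv_T_le hη 1 k x (by
        rw [mem_ball_zero_iff] at hx; exact hx.le)
    · exact hz
    · exact summable_T hη z (by rw [mem_ball_zero_iff] at hz; exact hz.le)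
    · exact hz
  exact hd.differentiableAt.differentiableWithinAt

end Pool.Agent.Lib.MP_ca9574_an
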