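import Mathlib

set_option autoImplicit false

namespace Pool.Agent.Lib.MP_ca9574_an

open Set Filter Topology Metric

/-- two-constant estimate through Taylor coefficients -/
theorem two_const {G : ℂ → ℂ} {c p : ℂ} {δ A B : ℝ} (hδ : 0 < δ) (hA : 0 ≤ A) (hB : 0 ≤ B)
    {U : Set ℂ} (hsub : closedBall c (3 * δ) ⊆ U) (hG : DifferentiableOn ℂ G U)
    (h1 : ∀ z ∈ sphere c (δ / 2), ‖G z‖ ≤ A) (h2 : ∀ z ∈ sphere c (3 * δ), ‖G z‖ ≤ B)
    (hp : dist p c = 2 * δ) (m₀ : ℕ) :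
    ‖G p‖ ≤ 6 * (A * 5 ^ m₀ + B * (4 / 5) ^ m₀) := by
  have hball : ball c (3 * δ) ⊆ U := ball_subset_closedBall.trans hsub
  have hsub1 : closedBall c (δ / 2) ⊆ U := (closedBall_subset_closedBall (by linarith)).trans hsub
  have hd1 : DiffContOnCl ℂ G (ball c (δ / 2)) := hG.diffContOnCl_ball hsub1
  have hd2 : DiffContOnCl ℂ G (ball c (3 * δ)) := hG.diffContOnCl_ball hsub
  have hpb : p ∈ ball c (3 * δ) := by rw [mem_ball, hp]; linarith
  have hT := Complex.hasSum_taylorSeries_on_ball (hG.mono hball) hpb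
  have hcoef1 := fun m => Complex.norm_iteratedDeriv_le_of_forall_mem_sphere_norm_le m
    (by positivity : 0 < δ / 2) hd1 h1
  have hcoef2 := fun m => Complex.norm_iteratedDeriv_le_of_forall_mem_sphere_norm_le m
    (by positivity : 0 < 3 * δ) hd2 h2
  have hnp : ‖p - c‖ = 2 * δ := by rw [← dist_eq_norm]; exact hp
  have hterm : ∀ m : ℕ, ‖((m.factorial : ℂ)⁻¹ • (p - c) ^ m • iteratedDeriv m G c)‖ ≤
      (A * 5 ^ m₀ + B * (4 / 5) ^ m₀) * (5 / 6) ^ m := by
    intro m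
    have hf : (0:ℝ) < m.factorial := by exact_mod_cast Nat.factorial_pos m
    have hnorm : ‖((m.factorial : ℂ)⁻¹ • (p - c) ^ m • iteratedDeriv m G c)‖
        = (m.factorial : ℝ)⁻¹ * ((2 * δ) ^ m * ‖iteratedDeriv m G c‖) := by
      rw [norm_smul, norm_smul, norm_inv, norm_pow, hnp, Complex.norm_natCast]
    rw [hnorm]
    rcases Nat.lt_or_ge m m₀ with hlt | hge
    · have e1 : (m.factorial : ℝ)⁻¹ * ((2 * δ) ^ m * ‖iteratedDeriv m G c‖)
          ≤ (m.factorial : ℝ)⁻¹ * ((2 * δ) ^ m * (m.factorial * A / (δ / 2) ^ m)) := by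
        have := hcoef1 m
        gcongr
      have e2 : (m.factorial : ℝ)⁻¹ * ((2 * δ) ^ m * (m.factorial * A / (δ / 2) ^ m)) = A * 4 ^ m := by
        rw [show (2 * δ) ^ m = 4 ^ m * (δ / 2) ^ m by rw [← mul_pow]; congr 1; ring]
        have : (δ / 2) ^ m ≠ 0 := by positivity
        field_simp
      have e3 : (4:ℝ) ^ m ≤ 5 ^ m₀ * (5 / 6) ^ m := by
        calc (4:ℝ) ^ m = (24 / 5) ^ m * (5 / 6) ^ m := by rw [← mul_pow]; norm_num
          _ ≤ 5 ^ m₀ * (5 / 6) ^ m := by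
            apply mul_le_mul_of_nonneg_right _ (by positivity)
            calc (24 / 5 : ℝ) ^ m ≤ 5 ^ m := pow_le_pow_left₀ (by norm_num) (by norm_num) m
              _ ≤ 5 ^ m₀ := pow_le_pow_right₀ (by norm_num) hlt.le
      have e4 : 0 ≤ B * (4 / 5) ^ m₀ * (5 / 6) ^ m := by positivity
      calc _ ≤ A * 4 ^ m := e1.trans_eq e2
        _ ≤ A * (5 ^ m₀ * (5 / 6) ^ m) := mul_le_mul_of_nonneg_left e3 hA
        _ ≤ _ := by nlinarith
    · have e1 : (m.factorial : ℝ)⁻¹ * ((2 * δ) ^ m * ‖iteratedDeriv m G c‖)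
          ≤ (m.factorial : ℝ)⁻¹ * ((2 * δ) ^ m * (m.factorial * B / (3 * δ) ^ m)) := by
        have := hcoef2 m
        gcongr
      have e2 : (m.factorial : ℝ)⁻¹ * ((2 * δ) ^ m * (m.factorial * B / (3 * δ) ^ m))
          = B * (2 / 3) ^ m := by
        rw [show (2 * δ) ^ m = (2 / 3) ^ m * (3 * δ) ^ m by rw [← mul_pow]; congr 1; ring]
        have : (3 * δ) ^ m ≠ 0 := by positivity
        field_simp
      have e3 : (2 / 3 : ℝ) ^ m ≤ (4 / 5) ^ m₀ * (5 / 6) ^ m := by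
        calc (2 / 3 : ℝ) ^ m = (4 / 5) ^ m * (5 / 6) ^ m := by rw [← mul_pow]; norm_num
          _ ≤ _ := by
            apply mul_le_mul_of_nonneg_right _ (by positivity)
            exact pow_le_pow_of_le_one (by norm_num) (by norm_num) hge
      have e4 : 0 ≤ A * 5 ^ m₀ * (5 / 6) ^ m := by positivity
      calc _ ≤ B * (2 / 3) ^ m := e1.trans_eq e2
        _ ≤ B * ((4 / 5) ^ m₀ * (5 / 6) ^ m) := mul_le_mul_of_nonneg_left e3 hB
        _ ≤ _ := by nlinarith
  have hgeo : HasSum (fun m : ℕ => (A * 5 ^ m₀ + B * (4 / 5) ^ m₀) * (5 / 6 : ℝ) ^ m)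
      ((A * 5 ^ m₀ + B * (4 / 5) ^ m₀) * (1 - 5 / 6)⁻¹) :=
    (hasSum_geometric_of_lt_one (by norm_num) (by norm_num)).mul_left _
  have := hT.norm_le_of_bounded hgeo hterm
  calc ‖G p‖ ≤ _ := this
    _ = _ := by norm_num; ring

/-- exponents -/
def M (k : ℕ) : ℕ := 2 ^ (3 ^ k)

theorem M_pos (k : ℕ) : 0 < M k := by unfold M; positivity

theorem M_succ (k : ℕ) : M (k + 1) = M k ^ 3 := by
  unfold M; rw [← pow_mul, pow_succ]

theorem two_le_M (k : ℕ) : 2 ≤ M k := by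
  unfold M
  calc 2 = 2 ^ 1 := by norm_num
    _ ≤ 2 ^ (3 ^ k) := Nat.pow_le_pow_right (by norm_num) (Nat.one_le_pow _ _ (by norm_num))

theorem M_lt_succ (k : ℕ) : M k + 1 ≤ M (k + 1) := by
  rw [M_succ]
  have := two_le_M k
  calc M k + 1 ≤ M k * 2 := by omega
    _ ≤ M k * (M k * M k) := Nat.mul_le_mul_left _ (by nlinarith)
    _ = M k ^ 3 := by ring

theorem M_add (k j : ℕ) : M k + j ≤ M (k + j) := by
  induction j with
  | zero => simp
  | succ j ih =>
    have := M_lt_succ (k + j)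
    rw [show k + (j + 1) = k + j + 1 by ring]
    omega

theorem le_M (k : ℕ) : k ≤ M k := by
  have := M_add 0 k
  rw [zero_add] at this
  omega

theorem exp_M_add (k j : ℕ) : Real.exp (-(M (k + j) : ℝ)) ≤
    Real.exp (-(M k : ℝ)) * (Real.exp (-1)) ^ j := by
  rw [← Real.exp_nat_mul, ← Real.exp_add, Real.exp_le_exp]
  have : ((M k + j : ℕ) : ℝ) ≤ (M (k + j) : ℝ) := by exact_mod_cast M_add k j
  push_cast at this
  linarith

theorem summable_exp_pow (a : ℕ) (b : ℝ) (hb : 0 ≤ b) :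
    Summable fun k : ℕ => Real.exp (-(M k : ℝ)) * ((M k : ℝ) ^ 2 + b) ^ a := by
  -- bound by C * (1 / (M k)) ≤ ...
  have hlim : Tendsto (fun x : ℝ => (x ^ 2 + b) ^ a * Real.exp (-(x / 2))) atTop (𝓝 0) := by
    have h1 : Tendsto (fun x : ℝ => x ^ (2 * a) * Real.exp (-(1 / 2) * x)) atTop (𝓝 0) := by
      have := (Real.tendsto_pow_mul_exp_neg_atTop_nhds_zero (2 * a))
      have h2 := this.comp (tendsto_id.const_mul_atTop (show (0:ℝ) < 1 / 2 by norm_num))
      have h3 := h2.const_mul ((2:ℝ) ^ (2 * a))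
      rw [mul_zero] at h3
      refine h3.congr (fun x => ?_)
      simp only [Function.comp, id]
      rw [← mul_assoc, ← mul_pow]
      congr 2
      · ring
      · ring
    have h4 : Tendsto (fun x : ℝ => (1 + b) ^ a * (x ^ (2 * a) * Real.exp (-(1 / 2) * x))) atTop (𝓝 0) := by
      simpa using h1.const_mul ((1 + b) ^ a)
    apply squeeze_zero' _ _ h4
    · filter_upwards with x
      positivity
    · filter_upwards [eventually_ge_atTop (1:ℝ)] with x hx
      have h5 : x ^ 2 + b ≤ (1 + b) * x ^ 2 := by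
        have h9 : 0 ≤ x ^ 2 - 1 := by nlinarith
        nlinarith [mul_nonneg hb h9]
      calc (x ^ 2 + b) ^ a * Real.exp (-(x / 2)) ≤ ((1 + b) * x ^ 2) ^ a * Real.exp (-(x / 2)) := by
            gcongr
        _ = _ := by
            rw [mul_pow, ← pow_mul, mul_assoc]
            congr 3
            ring
  have hM : Tendsto (fun k : ℕ => (M k : ℝ)) atTop atTop :=
    tendsto_natCast_atTop_atTop.comp (tendsto_atTop_mono le_M tendsto_id)
  have h6 := hlim.comp hM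
  -- eventually bounded by 1
  have h7 : ∀ᶠ k : ℕ in atTop, ((M k : ℝ) ^ 2 + b) ^ a * Real.exp (-((M k : ℝ) / 2)) ≤ 1 :=
    (h6.eventually (ge_mem_nhds (show (0:ℝ) < 1 by norm_num)))
  have hsum : Summable fun k : ℕ => (Real.exp (-(1 / 2))) ^ k :=
    summable_geometric_of_lt_one (Real.exp_pos _).le (by
      rw [Real.exp_lt_one_iff]; norm_num)
  apply Summable.of_norm_bounded_eventually_nat hsum
  filter_upwards [h7] with k hk
  rw [Real.norm_of_nonneg (by positivity)]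
  have h8 : Real.exp (-(M k : ℝ)) = Real.exp (-((M k : ℝ) / 2)) * Real.exp (-((M k : ℝ) / 2)) := by
    rw [← Real.exp_add]; congr 1; ring
  rw [h8]
  calc Real.exp (-((M k : ℝ) / 2)) * Real.exp (-((M k : ℝ) / 2)) * ((M k : ℝ) ^ 2 + b) ^ a
      = Real.exp (-((M k : ℝ) / 2)) * (((M k : ℝ) ^ 2 + b) ^ a * Real.exp (-((M k : ℝ) / 2))) := by ring
    _ ≤ Real.exp (-((M k : ℝ) / 2)) * 1 := by gcongr
    _ = Real.exp (-((M k : ℝ) / 2)) := mul_one _
    _ ≤ (Real.exp (-(1 / 2))) ^ k := by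
      rw [← Real.exp_nat_mul, Real.exp_le_exp]
      have : (k : ℝ) ≤ M k := by exact_mod_cast le_M k
      linarith

end Pool.Agent.Lib.MP_ca9574_an
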